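import Pool.Agent.KS6_99.QS.Nec

/-!
# Stable boundedness of quaternionic systems: the complete criterion

For the system `A_l x^(l) + ... + A_1 x' + A_0 x = 0` with `A_k` hermitian for even `k`,
skewhermitian for odd `k` and `A_l` invertible, and with the companion matrix `C` invertible or
not, the following are equivalent:

* the system is stably bounded;
* all small admissible perturbations of the two coefficients `A_0` and `A_1` alone give bounded
  systems;
* no eigenvector `v` of `C` is neutral, that is `v* G v ≠ 0` for every eigenvector;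
* the form of `G C` is definite (positive or negative) on the root subspace of `C` at every nonzero
  eigenvalue, and the root subspace of `C` at `0` has quaternionic dimension at most one.

If `C` is invertible this says that the system is stably bounded if and only if every root subspace
of `C` is positive or negative for `G C`.

The notions `Sym`, `Bdd`, `StablyBdd`, `C`, `G`, `root` are those of the earlier file `Definite`.
-/

set_option autoImplicit false

namespace Pool.Agent.Results.MP_554556_an.StabilityCriterion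

open Matrix Quaternion Pool.Agent.KS6_99.QS
open Pool.Agent.Results.MP_554556_an.Definite (M Sym Bdd StablyBdd C G root)

/-- **The criterion for stable boundedness.** -/
theorem result {n : ℕ} (l : ℕ) (hl : 1 ≤ l) (A : ℕ → M n) (hA : Sym l A) (hu : IsUnit (A l)) :
    (StablyBdd l A ↔ LowStablyBdd l A) ∧
    (StablyBdd l A ↔ ∀ (v : Fin l × Fin n → ℍ[ℝ]) (q : ℍ[ℝ]), v ≠ 0 →
      (C l A *ᵥ v = fun i => v i * q) → star v ⬝ᵥ G l A *ᵥ v ≠ 0) ∧
    (StablyBdd l A ↔
      (∀ q : ℍ[ℝ], q ≠ 0 → (∃ v ≠ 0, C l A *ᵥ v = fun i => v i * q) →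
        RootDef (G l A) (C l A) q) ∧ RootLine (C l A)) ∧
    (IsUnit (C l A) → (StablyBdd l A ↔
      ∀ q : ℍ[ℝ], (∃ v ≠ 0, C l A *ᵥ v = fun i => v i * q) → RootDef (G l A) (C l A) q)) := by
  obtain ⟨l, rfl⟩ := Nat.exists_eq_add_of_le' hl
  have hs := Pool.Agent.Results.MP_554556_an.Definite.hG hA
  have hK := skG hA hu
  have a1 : StablyBdd (l + 1) A → LowStablyBdd (l + 1) A := by
    rintro ⟨ε, hε, h⟩
    refine ⟨ε, hε, fun H S hH hS h1 h2 => h _ (fun k hk => ?_) fun k _ a b => ?_⟩
    · unfold lowPert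
      rw [conjTranspose_add, hA k hk]
      rcases k with _ | _ | k
      · simp [hH]
      · simp [hS, add_comm]
      · simp
    · unfold lowPert
      rw [Matrix.add_apply, add_sub_cancel_left]
      split_ifs
      exacts [h1 a b, h2 a b, by simpa using hε]
  have a2 : LowStablyBdd (l + 1) A → NoNeutral (G (l + 1) A) (C (l + 1) A) :=
    noNeutral_of_low hA hu
  have a3 : NoNeutral (G (l + 1) A) (C (l + 1) A) → StablyBdd (l + 1) A := stable_of hu
  have a4 : StablyBdd (l + 1) A ↔ NoNeutral (G (l + 1) A) (C (l + 1) A) :=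
    ⟨fun h => a2 (a1 h), a3⟩
  have a5 : StablyBdd (l + 1) A ↔
      (∀ q : ℍ[ℝ], q ≠ 0 → (∃ v ≠ 0, C (l + 1) A *ᵥ v = fun i => v i * q) →
        RootDef (G (l + 1) A) (C (l + 1) A) q) ∧ RootLine (C (l + 1) A) := by
    rw [a4]
    exact ⟨fun h => ⟨fun q q0 hq => rootDef_of hs hK h q0 hq, rootLine_of hs hK h⟩,
      fun h => noNeutral_of hs hK (G_inj hu) h.1 h.2⟩
  refine ⟨⟨a1, fun h => a3 (a2 h)⟩, a4, a5, fun hC => ?_⟩
  rw [a5]
  constructor
  · rintro ⟨h, -⟩ q ⟨v, v0, hv⟩
    refine h q (fun q0 => v0 ?_) ⟨v, v0, hv⟩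
    rw [← one_mulVec v, ← Ring.inverse_mul_cancel _ hC, ← mulVec_mulVec, hv, q0]
    simp [← Pi.zero_def]
  · intro h
    refine ⟨fun q _ hq => h q hq, fun v hv w hw => ⟨1, 0, Or.inl one_ne_zero, fun i => ?_⟩⟩
    have hv0 : v = 0 := by
      rw [root_zero] at hv
      rw [← one_mulVec v, ← Ring.inverse_mul_cancel _ (hC.pow (Fintype.card (Fin (l + 1) × Fin n))), ← mulVec_mulVec,
        hv, mulVec_zero]
    simp [hv0]

end Pool.Agent.Results.MP_554556_an.StabilityCriterion
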